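import Mathlib
import Pool.Agent.TH504.CB.PeriodDefs

/-!
# Products of Hodge classes on a complex torus and on a variety
-/

set_option autoImplicit false
set_option linter.unusedSectionVars false
set_option linter.unusedVariables false

namespace Pool.Agent.K6.H79.CMA

open Module Pool.Agent.H204R3.CM Pool.Agent.TH131.GHC Pool.Agent.TH504.VY Pool.Agent.TH504.CB

noncomputable section

variable {W T : Type} [AddCommGroup W] [Module ℚ W] [AddCommGroup T] [Module ℂ T]
  {per : W →+ T} {v k : ℕ}

theorem sum_sets (ψ : MultilinearMap ℝ (fun _ : Fin k => T) ℝ) (u : Fin k → T) (θ : ℝ) :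
    ψ (fun l => Complex.exp (θ * Complex.I) • u l) =
      ∑ s : Finset (Fin k), Real.cos θ ^ s.card * Real.sin θ ^ (k - s.card) *
        ψ (s.piecewise u (fun l => Complex.I • u l)) := by
  classical
  have h2 : (fun l => Complex.exp (θ * Complex.I) • u l) =
      (fun l => Real.cos θ • u l) + (fun l => Real.sin θ • (Complex.I • u l)) := by
    funext l
    rw [Complex.exp_mul_I, Pi.add_apply, add_smul, mul_smul, ← Complex.ofReal_cos,
      ← Complex.ofReal_sin, Complex.coe_smul, Complex.coe_smul]
  rw [h2, MultilinearMap.map_add_univ]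
  refine Finset.sum_congr rfl fun s _ => ?_
  have h3 : s.piecewise (fun l => Real.cos θ • u l) (fun l => Real.sin θ • (Complex.I • u l)) =
      fun l => (if l ∈ s then Real.cos θ else Real.sin θ) •
        (s.piecewise u (fun l => Complex.I • u l)) l := by
    funext l
    by_cases hl : l ∈ s
    · simp only [Finset.piecewise, hl, if_true]
    · simp only [Finset.piecewise, hl, if_false]
  rw [h3, MultilinearMap.map_smul_univ, smul_eq_mul]
  congr 1
  rw [Finset.prod_ite, Finset.prod_const, Finset.prod_const]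
  congr 2
  · congr 1
    ext l
    simp
  · have h4 : Finset.univ.filter (fun l => l ∉ s) = sᶜ := by
      ext l
      simp
    rw [h4, Finset.card_compl, Fintype.card_fin]

theorem deriv_sets (m n : ℕ) : HasDerivAt (fun θ : ℝ => Real.cos θ ^ m * Real.sin θ ^ n)
    (if n = 1 then 1 else 0) 0 := by
  have h1 : HasDerivAt (fun θ : ℝ => Real.cos θ ^ m * Real.sin θ ^ n) _ 0 :=
    ((Real.hasDerivAt_cos 0).pow m).mul ((Real.hasDerivAt_sin 0).pow n)
  refine h1.congr_deriv ?_
  by_cases hn : n = 1
  · subst hn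
    simp
  · rw [if_neg hn]
    rcases Nat.eq_zero_or_pos n with rfl | hn0
    · simp
    · obtain ⟨r, rfl⟩ : ∃ r, n = r + 2 := ⟨n - 2, by omega⟩
      simp

/-- The derivative along the circle. -/
theorem deriv_circle (ψ : MultilinearMap ℝ (fun _ : Fin k => T) ℝ) (u : Fin k → T) :
    HasDerivAt (fun θ : ℝ => ψ (fun l => Complex.exp (θ * Complex.I) • u l))
      (∑ l, ψ (Function.update u l (Complex.I • u l))) 0 := by
  classical
  have h1 : HasDerivAt (fun θ : ℝ => ∑ s : Finset (Fin k), Real.cos θ ^ s.card *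
      Real.sin θ ^ (k - s.card) * ψ (s.piecewise u (fun l => Complex.I • u l)))
      (∑ s : Finset (Fin k), (if k - s.card = 1 then 1 else 0) *
        ψ (s.piecewise u (fun l => Complex.I • u l))) 0 :=
    HasDerivAt.fun_sum fun s _ => (deriv_sets s.card (k - s.card)).mul_const _
  have h2 : (fun θ : ℝ => ∑ s : Finset (Fin k), Real.cos θ ^ s.card *
      Real.sin θ ^ (k - s.card) * ψ (s.piecewise u (fun l => Complex.I • u l))) =
      fun θ : ℝ => ψ (fun l => Complex.exp (θ * Complex.I) • u l) :=
    funext fun θ => (sum_sets ψ u θ).symm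
  rw [h2] at h1
  refine h1.congr_deriv ?_
  simp only [ite_mul, one_mul, zero_mul]
  rw [← Finset.sum_filter]
  have h4 : (Finset.univ : Finset (Finset (Fin k))).filter (fun s => k - s.card = 1) =
      Finset.univ.image (fun l : Fin k => ({l}ᶜ : Finset (Fin k))) := by
    ext s
    simp only [Finset.mem_filter, Finset.mem_univ, true_and, Finset.mem_image]
    have h5 : sᶜ.card = k - s.card := by rw [Finset.card_compl, Fintype.card_fin]
    rw [← h5, Finset.card_eq_one]
    constructor
    · rintro ⟨l, hl⟩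
      exact ⟨l, by rw [← hl, compl_compl]⟩
    · rintro ⟨l, hl⟩
      exact ⟨l, by rw [← hl, compl_compl]⟩
  rw [h4, Finset.sum_image]
  · refine Finset.sum_congr rfl fun l _ => ?_
    congr 1
    funext i
    by_cases hi : i = l
    · subst hi
      rw [Function.update_self]
      simp [Finset.piecewise]
    · rw [Function.update_of_ne hi]
      simp [Finset.piecewise, hi]
  · intro l _ l' _ hl
    have h5 := congrArg (fun s : Finset (Fin k) => sᶜ) hl
    simp only [compl_compl] at h5
    exact Finset.singleton_injective h5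

/-- The derivative of the invariance under the circle. -/
theorem hodge_deriv (ψ : MultilinearMap ℝ (fun _ : Fin k => T) ℝ)
    (h : ∀ z : ℂ, ‖z‖ = 1 → ∀ u : Fin k → T, ψ (fun l => z • u l) = ψ u) (u : Fin k → T) :
    ∑ l, ψ (Function.update u l (Complex.I • u l)) = 0 := by
  have h1 := deriv_circle ψ u
  have h2 : (fun θ : ℝ => ψ (fun l => Complex.exp (θ * Complex.I) • u l)) = fun _ => ψ u :=
    funext fun θ => h _ (Complex.norm_exp_ofReal_mul_I θ) u
  rw [h2] at h1
  exact h1.unique (hasDerivAt_const (0 : ℝ) (ψ u))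

/-- The form is invariant under the circle if this is true infinitesimally. -/
theorem hodge_integral (ψ : MultilinearMap ℝ (fun _ : Fin k => T) ℝ)
    (h : ∀ u : Fin k → T, ∑ l, ψ (Function.update u l (Complex.I • u l)) = 0) (z : ℂ)
    (hz : ‖z‖ = 1) (u : Fin k → T) : ψ (fun l => z • u l) = ψ u := by
  let g : ℝ → ℝ := fun θ => ψ (fun l => Complex.exp (θ * Complex.I) • u l)
  have h1 : ∀ θ, HasDerivAt g 0 θ := by
    intro θ
    have h2 := deriv_circle ψ (fun l => Complex.exp (θ * Complex.I) • u l)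
    rw [h] at h2
    have h3 : (fun θ' : ℝ => ψ (fun l => Complex.exp (θ' * Complex.I) •
        Complex.exp (θ * Complex.I) • u l)) = fun θ' => g (θ' + θ) := by
      funext θ'
      simp only [g]
      congr 1
      funext l
      rw [smul_smul, ← Complex.exp_add, Complex.ofReal_add, add_mul]
    rw [h3] at h2
    have h4 : HasDerivAt (fun θ' : ℝ => g (θ' + θ)) 0 (θ - θ) := by rw [sub_self]; exact h2
    have h5 := h4.comp_sub_const θ θ
    simpa only [sub_add_cancel] using h5
  have h2 : g (Complex.arg z) = g 0 :=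
    is_const_of_deriv_eq_zero (fun θ => (h1 θ).differentiableAt) (fun θ => (h1 θ).deriv) _ _
  have h3 : Complex.exp (Complex.arg z * Complex.I) = z := by
    have h4 := Complex.norm_mul_exp_arg_mul_I z
    rwa [hz, Complex.ofReal_one, one_mul] at h4
  simp only [g, h3, Complex.ofReal_zero, zero_mul, Complex.exp_zero, one_smul] at h2
  exact h2

/-- A Hodge class on a complex torus extends to a real alternating form on the tangent space which
is killed by the Hodge operator. -/
theorem exists_alt {f : W [⋀^Fin k]→ₗ[ℚ] ℚ} (hf : IsHodge per f) :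
    ∃ ψ : T [⋀^Fin k]→ₗ[ℝ] ℝ, (∀ w : Fin k → W, ψ (fun l => per (w l)) = f w) ∧
      ∀ u : Fin k → T, ∑ l, ψ (Function.update u l (Complex.I • u l)) = 0 := by
  classical
  obtain ⟨ψ, h1, h2⟩ := hf
  have hk : ((Nat.factorial k : ℕ) : ℝ) ≠ 0 := by exact_mod_cast (Nat.factorial_pos k).ne'
  let ψ' : T [⋀^Fin k]→ₗ[ℝ] ℝ := ((Nat.factorial k : ℕ) : ℝ)⁻¹ • MultilinearMap.alternatization ψ
  refine ⟨ψ', fun w => ?_, fun u => ?_⟩
  · change ((Nat.factorial k : ℕ) : ℝ)⁻¹ • MultilinearMap.alternatization ψ _ = _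
    rw [MultilinearMap.alternatization_apply]
    have h3 : ∀ σ : Equiv.Perm (Fin k), Equiv.Perm.sign σ •
        ψ (fun l => per (w (σ l))) = (f w : ℝ) := by
      intro σ
      rw [h1 (fun l => w (σ l))]
      have h4 : f (fun l => w (σ l)) = Equiv.Perm.sign σ • f w := f.map_perm w σ
      rw [h4]
      rcases Int.units_eq_one_or (Equiv.Perm.sign σ) with h5 | h5 <;> rw [h5] <;> simp
    have h5 : ∑ σ : Equiv.Perm (Fin k), Equiv.Perm.sign σ • (MultilinearMap.domDomCongr σ ψ)
        (fun l => per (w l)) = ∑ σ : Equiv.Perm (Fin k), (f w : ℝ) :=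
      Finset.sum_congr rfl fun σ _ => h3 σ
    rw [h5, Finset.sum_const, Finset.card_univ, Fintype.card_perm, Fintype.card_fin,
      nsmul_eq_mul, smul_eq_mul, inv_mul_cancel_left₀ hk]
  · refine hodge_deriv ψ'.toMultilinearMap (fun z hz u => ?_) u
    change ((Nat.factorial k : ℕ) : ℝ)⁻¹ • MultilinearMap.alternatization ψ _ =
      ((Nat.factorial k : ℕ) : ℝ)⁻¹ • MultilinearMap.alternatization ψ _
    rw [MultilinearMap.alternatization_apply, MultilinearMap.alternatization_apply]
    congr 1
    refine Finset.sum_congr rfl fun σ _ => ?_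
    congr 1
    exact h2 z hz (fun l => u (σ l))

/-- The product of two Hodge classes is a Hodge class. -/
theorem isHodge_cross {V : Coh v} {f : W [⋀^Fin k]→ₗ[ℚ] ℚ} (hf : IsHodge per f)
    {x : Fin v → ℚ} (hx : IsHodgeOn V x) : IsHodgeOnProduct per V (cross f x) := by
  classical
  obtain ⟨ψ, h1, h2⟩ := exists_alt hf
  refine ⟨Pi.single k ((LinearMap.toSpanSingleton ℝ (Fin v → ℂ) (cv x)).compAlternatingMap ψ),
    fun k' w => ?_, fun k' u => ?_⟩
  · by_cases hk : k' = k
    · subst hk
      rw [Pi.single_eq_same, cross, Pi.single_eq_same]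
      change (ψ fun l => per (w l)) • cv x = cv ((f w) • x)
      rw [h1]
      funext b
      simp only [cv, Pi.smul_apply, smul_eq_mul, Rat.cast_mul, Complex.real_smul]
      norm_cast
    · rw [Pi.single_eq_of_ne hk, cross, Pi.single_eq_of_ne hk]
      funext b
      simp only [cv, AlternatingMap.zero_apply, Pi.zero_apply, Rat.cast_zero]
  · by_cases hk : k' = k
    · subst hk
      rw [Pi.single_eq_same]
      change (-Complex.I) • ∑ l, ψ (Function.update u l (Complex.I • u l)) • cv x +
        V.z.mulVec ((ψ u) • cv x) = _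
      have h3 : V.z.mulVec (cv x) = 0 := hx
      rw [← Finset.sum_smul, h2, zero_smul, smul_zero, zero_add, Matrix.mulVec_smul, h3, smul_zero,
        Int.cast_zero, zero_smul]
    · rw [Pi.single_eq_of_ne hk]
      simp only [AlternatingMap.zero_apply, Finset.sum_const_zero, smul_zero, Matrix.mulVec_zero,
        add_zero]

/-- The coordinates of a Hodge class on the product in degree zero on the variety. -/
theorem isHodge_coord {V : Coh v} {F : HAZ W v} (hF : IsHodgeOnProduct per V F) (b₀ : Fin v)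
    (hb : ∀ b, V.z b₀ b = 0) (k : ℕ) :
    IsHodge per ((LinearMap.proj b₀ : (Fin v → ℚ) →ₗ[ℚ] ℚ).compAlternatingMap (F k)) := by
  obtain ⟨Φ, h1, h2⟩ := hF
  let r : (Fin v → ℂ) →ₗ[ℝ] ℝ := Complex.reLm.comp (LinearMap.proj b₀)
  refine ⟨(r.compAlternatingMap (Φ k)).toMultilinearMap, fun w => ?_, fun z hz u => ?_⟩
  · change Complex.re (Φ k (fun l => per (w l)) b₀) = _
    rw [h1]
    exact Complex.ratCast_re _
  · refine hodge_integral _ (fun u => ?_) z hz u
    have h3 := congrFun (h2 k u) b₀
    rw [Pi.add_apply, Pi.smul_apply, Int.cast_zero, zero_smul, Pi.zero_apply] at h3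
    have h4 : V.z.mulVec (Φ k u) b₀ = 0 := by
      change ∑ b, V.z b₀ b * Φ k u b = 0
      refine Finset.sum_eq_zero fun b _ => ?_
      rw [hb, zero_mul]
    rw [h4, add_zero, smul_eq_mul] at h3
    have h5 := (mul_eq_zero.1 h3).resolve_left (neg_ne_zero.2 Complex.I_ne_zero)
    change ∑ l, Complex.re (Φ k (Function.update u l (Complex.I • u l)) b₀) = 0
    rw [← Complex.re_sum]
    rw [Finset.sum_apply] at h5
    rw [h5, Complex.zero_re]

/-- The part of degree zero in `A` of a Hodge class on the product. -/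
theorem isHodge_zero_part {V : Coh v} {F : HAZ W v} (hF : IsHodgeOnProduct per V F)
    (w : Fin 0 → W) : IsHodgeOn V (F 0 w) := by
  obtain ⟨Φ, h1, h2⟩ := hF
  have h3 := h2 0 (fun l => per (w l))
  rw [h1] at h3
  change V.z.mulVec (cv (F 0 w)) = 0
  rw [Int.cast_zero, zero_smul] at h3
  simpa using h3

theorem isHodgeOnProduct_zero {V : Coh v} : IsHodgeOnProduct per V (0 : HAZ W v) := by
  refine ⟨0, fun k w => ?_, fun k u => ?_⟩
  · funext b
    simp [cv]
  · simp

theorem isHodgeOnProduct_add {V : Coh v} {F G : HAZ W v} (hF : IsHodgeOnProduct per V F)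
    (hG : IsHodgeOnProduct per V G) : IsHodgeOnProduct per V (F + G) := by
  obtain ⟨Φ, h1, h2⟩ := hF
  obtain ⟨Ψ, h3, h4⟩ := hG
  refine ⟨Φ + Ψ, fun k w => ?_, fun k u => ?_⟩
  · rw [Pi.add_apply, Pi.add_apply, AlternatingMap.add_apply, AlternatingMap.add_apply, h1, h3]
    funext b
    simp [cv]
  · have h5 := h2 k u
    have h6 := h4 k u
    rw [Int.cast_zero, zero_smul] at h5 h6 ⊢
    simp only [Pi.add_apply, AlternatingMap.add_apply, Finset.sum_add_distrib, smul_add,
      Matrix.mulVec_add]
    have h7 := congrArg₂ (· + ·) h5 h6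
    simp only [add_zero] at h7
    rw [← h7]
    abel

theorem isHodgeOnProduct_smul {V : Coh v} {F : HAZ W v} (c : ℚ)
    (hF : IsHodgeOnProduct per V F) : IsHodgeOnProduct per V (c • F) := by
  obtain ⟨Φ, h1, h2⟩ := hF
  refine ⟨(c : ℝ) • Φ, fun k w => ?_, fun k u => ?_⟩
  · rw [Pi.smul_apply, Pi.smul_apply, AlternatingMap.smul_apply, AlternatingMap.smul_apply, h1]
    funext b
    simp [cv]
  · have h5 := h2 k u
    rw [Int.cast_zero, zero_smul] at h5 ⊢
    simp only [Pi.smul_apply, AlternatingMap.smul_apply]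
    have h6 : V.z.mulVec ((c : ℝ) • Φ k u) = (c : ℝ) • V.z.mulVec (Φ k u) :=
      Matrix.mulVec_smul _ _ _
    rw [h6, ← Finset.smul_sum, smul_comm, ← smul_add, h5, smul_zero]

end

end Pool.Agent.K6.H79.CMA
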