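import Mathlib
import Pool.Agent.Y1.HZ.Main

/-!
# Hodge classes on the products of abelian varieties of CM type, of any types, with unrelated
varieties
-/

set_option autoImplicit false
set_option linter.unusedSectionVars false
set_option linter.unusedVariables false

namespace Pool.Agent.K6.H79.CMA

open Matrix NumberField Module Equiv Pool.Agent.H204R3.CM Pool.Agent.TH131.GHC
  Pool.Agent.H977R3.CM Pool.Agent.TH504.VY Pool.Agent.TH504.CB Pool.Agent.TH170.CM
  Pool.Agent.Y1.HZ

noncomputable section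

/-- The span of the products `f ⊗ x` of a Hodge class `f` on the complex torus and a Hodge class `x`
of the variety with cohomology `V`. -/
def hodgeSpan {W T : Type} [AddCommGroup W] [Module ℚ W] [AddCommGroup T]
    [Module ℂ T] (per : W →+ T) {v : ℕ} (V : Coh v) : Submodule ℚ (HAZ W v) :=
  Submodule.span ℚ {F | ∃ (k : ℕ) (f : W [⋀^Fin k]→ₗ[ℚ] ℚ) (x : Fin v → ℚ),
    IsHodge per f ∧ IsHodgeOn V x ∧ F = cross f x}

variable {ι J : Type} [Fintype ι] [Fintype J] {E : ι → Type} [∀ i, Field (E i)]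
  [∀ i, NumberField (E i)]
  {L : Type} [Field L] [NumberField L]
  {Φ : ∀ i, Set (E i →+* ℂ)} (hΦ : ∀ i, IsCMType (Φ i)) (t : J → ι) (j : L →+* ℂ)
  {v k : ℕ} (V : Coh v)

theorem prod_zpow_eq {α : Type} (s : Finset α) (z : ℂ) (hz : z ≠ 0) (e : α → ℤ) :
    ∏ l ∈ s, z ^ e l = z ^ ∑ l ∈ s, e l := by
  classical
  induction s using Finset.induction_on with
  | empty => rw [Finset.prod_empty, Finset.sum_empty, _root_.zpow_zero]
  | insert a s ha ih => rw [Finset.prod_insert ha, Finset.sum_insert ha, ih, zpow_add₀ hz]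

open Classical in
include hΦ in
/-- A form whose coefficients are supported at the words with as many letters inside as outside of
the CM types is a Hodge class. -/
theorem isHodge_of_coeff (c : (Fin k → XX E t ℂ) → ℂ) (f : (∀ j, E (t j)) [⋀^Fin k]→ₗ[ℚ] ℚ)
    (hc : ∀ w : Fin k → ∀ j, E (t j),
      ((f w : ℚ) : ℂ) = ∑ I : Fin k → XX E t ℂ, c I * ∏ l, chi E t ℂ (w l) (I l))
    (hz : ∀ I, c I ≠ 0 → sgSum Φ t I = 0) : IsHodge (per Φ t) f := by
  classical
  refine ⟨Complex.reLm.compMultilinearMap (((formOf t c).restrictScalars ℝ).compLinearMap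
    (fun _ => theta t hΦ)), fun w => ?_, fun z hz1 u => ?_⟩
  · change Complex.re (formOf t c (fun l => theta t hΦ (per Φ t (w l)))) = _
    rw [formOf_apply]
    simp only [theta_per]
    have h1 := hc w
    have h2 : (∑ I : Fin k → XX E t ℂ, c I * ∏ l, chi E t ℂ (w l) (I l)) = ((f w : ℚ) : ℂ) :=
      h1.symm
    rw [h2]
    exact Complex.ratCast_re _
  · change Complex.re (formOf t c (fun l => theta t hΦ (z • u l))) =
      Complex.re (formOf t c (fun l => theta t hΦ (u l)))
    congr 1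
    rw [formOf_apply, formOf_apply]
    refine Finset.sum_congr rfl fun I _ => ?_
    by_cases hI : c I = 0
    · rw [hI, zero_mul, zero_mul]
    congr 1
    have h4 : z * starRingEnd ℂ z = 1 := by
      rw [Complex.mul_conj, Complex.normSq_eq_norm_sq, hz1]
      norm_num
    have hz0 : z ≠ 0 := by
      rintro rfl
      simp at hz1
    have h5 : ∀ x : XX E t ℂ, dz t Φ z x =
        z ^ (if x.2 ∈ Φ (t x.1) then (1 : ℤ) else -1) := by
      intro x
      by_cases h : x.2 ∈ Φ (t x.1)
      · rw [if_pos h, _root_.zpow_one]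
        simp only [dz, h, if_true]
      · rw [if_neg h, _root_.zpow_neg, _root_.zpow_one]
        simp only [dz, h, if_false]
        exact (eq_inv_of_mul_eq_one_right h4)
    simp only [theta_smul]
    rw [Finset.prod_mul_distrib]
    have h6 : ∏ l, dz t Φ z (I l) = z ^ (sgSum Φ t I) := by
      rw [sgSum]
      simp only [h5]
      exact prod_zpow_eq _ z hz0 _
    rw [h6, hz I hI, _root_.zpow_zero, one_mul]

variable [∀ i, IsCMField (E i)] [IsGalois ℚ L]

open Classical in
include hΦ in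
/-- The words with nonzero coefficients have as many letters inside as outside of the CM types, and
the same is true for all their conjugates. -/
theorem sg_zero (h : ∀ i, ∀ ψ : E i →+* ℂ, ∃ φ : E i →+* L, j.comp φ = ψ)
    (hun : ∀ i, UnrelatedHodge V (E i))
    (f : (∀ j, E (t j)) [⋀^Fin k]→ₗ[ℚ] (Fin v → ℚ))
    (S : Sit Φ t j V f)
    (I : Fin k → XX E t L) (hI : ∃ b, S.c b I ≠ 0) (σ : L ≃ₐ[ℚ] L) :
    sgL Φ t j I σ = 0 := by
  choose g hg using fun s : ℂ ≃+* ℂ => exists_gal j s
  have hg1 : ∀ (s : ℂ ≃+* ℂ) (g' : L ≃ₐ[ℚ] L), (∀ x, s (j x) = j (g' x)) → g s = g' := by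
    intro s g' hs
    ext x
    apply j.injective
    rw [← hg s x, hs x]
  have hmul : ∀ τ s : ℂ ≃+* ℂ, g (τ.trans s) = g s * g τ := by
    intro τ s
    refine hg1 _ _ fun x => ?_
    rw [RingEquiv.trans_apply, hg τ, hg s]
    rfl
  let w : Fin v → ℂ := fun b => j (S.c b I)
  let d : (ℂ ≃+* ℂ) → ℤ := fun s => - sgL Φ t j I (g s)
  have hw : w ≠ 0 := by
    obtain ⟨b, hb⟩ := hI
    intro h0
    exact hb ((map_eq_zero j).1 (congrFun h0 b))
  have hty : HasTypes V w d := by
    intro s
    have h1 := type_conj hΦ t j V h S.c f S.Ψ S.hext S.htype S.hc I (g s)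
    have h2 : (fun b => s (w b)) = fun b => j (g s (S.c b I)) := funext fun b => hg s (S.c b I)
    rw [h2, h1]
    simp only [d, Int.cast_neg]
  -- the projection of the signs to the functions on the embeddings
  let n : ∀ i, (E i →+* L) → ℤ := fun i φ =>
    ∑ σ : L ≃ₐ[ℚ] L, sgL Φ t j I σ * (if j.comp (σ • φ) ∈ Φ i then (1 : ℤ) else -1)
  have hodd : ∀ i φ, n i (cbar φ) = - n i φ := by
    intro i φ
    simp only [n]
    rw [← Finset.sum_neg_distrib]
    refine Finset.sum_congr rfl fun σ _ => ?_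
    have h3 : j.comp (σ • cbar φ) = ComplexEmbedding.conjugate (j.comp (σ • φ)) := by
      rw [← comp_cbar]
      rfl
    rw [h3]
    by_cases h4 : j.comp (σ • φ) ∈ Φ i
    · rw [if_pos h4, if_neg ((hΦ i _).1 h4)]
      ring
    · rw [if_neg h4, if_pos (conj_mem hΦ h4)]
      ring
  have hinv : ∀ i φ (τ : L ≃ₐ[ℚ] L), (∀ σ : L ≃ₐ[ℚ] L, sgL Φ t j I (σ * τ) = sgL Φ t j I σ) →
      n i (τ • φ) = n i φ := by
    intro i φ τ hτ
    simp only [n]
    refine Fintype.sum_equiv (Equiv.mulRight τ) _ _ fun σ => ?_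
    rw [Equiv.coe_mulRight, hτ, mul_smul]
  have hn0 : ∀ i φ, n i φ = 0 := by
    intro i φ
    let e : (E i →+* L) ≃ (E i →+* ℂ) := embEquiv j (h i)
    have h1 := hun i w d hw hty (fun ψ => (n i (e.symm ψ) : ℚ)) (by
      intro ψ
      obtain ⟨φ, rfl⟩ := e.surjective ψ
      have h2 : ComplexEmbedding.conjugate (e φ) = e (cbar φ) := (comp_cbar j φ).symm
      rw [h2, Equiv.symm_apply_apply, Equiv.symm_apply_apply, hodd, Int.cast_neg]) (by
      intro τ hτ ψ
      obtain ⟨φ, rfl⟩ := e.surjective ψ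
      have h2 : (τ : ℂ →+* ℂ).comp (e φ) = e (g τ • φ) := by
        ext y
        exact hg τ (φ y)
      rw [h2, Equiv.symm_apply_apply, Equiv.symm_apply_apply]
      congr 1
      refine hinv i φ (g τ) fun σ => ?_
      obtain ⟨s, hs⟩ := exists_aut j (σ : L ≃+* L)
      have h3 := hτ s
      have h4 : g s = σ := hg1 s σ hs
      simp only [d, hmul, h4] at h3
      linarith)
    have h2 := congrFun h1 (e φ)
    simp only [Equiv.symm_apply_apply, Pi.zero_apply, Int.cast_eq_zero] at h2
    exact h2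
  have hsq : ∑ σ : L ≃ₐ[ℚ] L, sgL Φ t j I σ * (2 * sgL Φ t j I σ) = 0 := by
    have h1 : ∑ i, ∑ φ : E i →+* L, dif t I i φ * n i φ = 0 := by
      refine Finset.sum_eq_zero fun i _ => Finset.sum_eq_zero fun φ _ => ?_
      rw [hn0, mul_zero]
    rw [← h1]
    have h2 : ∀ σ : L ≃ₐ[ℚ] L, sgL Φ t j I σ * (2 * sgL Φ t j I σ) =
        ∑ i, ∑ φ : E i →+* L, dif t I i φ *
          (sgL Φ t j I σ * (if j.comp (σ • φ) ∈ Φ i then (1 : ℤ) else -1)) := by
      intro σ
      rw [← sum_dif hΦ t j I σ, Finset.mul_sum]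
      refine Finset.sum_congr rfl fun i _ => ?_
      rw [Finset.mul_sum]
      refine Finset.sum_congr rfl fun φ _ => ?_
      ring
    rw [Finset.sum_congr rfl fun σ _ => h2 σ, Finset.sum_comm]
    refine Finset.sum_congr rfl fun i _ => ?_
    rw [Finset.sum_comm]
    refine Finset.sum_congr rfl fun φ _ => ?_
    simp only [n]
    rw [Finset.mul_sum]
  have hsq' : ∑ σ : L ≃ₐ[ℚ] L, sgL Φ t j I σ * sgL Φ t j I σ = 0 := by
    have h1 : ∑ σ : L ≃ₐ[ℚ] L, sgL Φ t j I σ * (2 * sgL Φ t j I σ) =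
        2 * ∑ σ : L ≃ₐ[ℚ] L, sgL Φ t j I σ * sgL Φ t j I σ := by
      rw [Finset.mul_sum]
      refine Finset.sum_congr rfl fun σ _ => ?_
      ring
    rw [h1] at hsq
    omega
  have h1 := (Finset.sum_eq_zero_iff_of_nonneg (fun σ _ => mul_self_nonneg _)).1 hsq' σ
    (Finset.mem_univ σ)
  exact mul_self_eq_zero.1 h1

open Classical in
include hΦ in
/-- The values of the class are Hodge classes on the variety. -/
theorem value_hodge (h : ∀ i, ∀ ψ : E i →+* ℂ, ∃ φ : E i →+* L, j.comp φ = ψ)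
    (hun : ∀ i, UnrelatedHodge V (E i)) (f : (∀ j, E (t j)) [⋀^Fin k]→ₗ[ℚ] (Fin v → ℚ))
    (S : Sit Φ t j V f) (w : Fin k → ∀ j, E (t j)) : f w ∈ HZ V := by
  change V.z *ᵥ cv (f w) = 0
  have h1 : cv (f w) = ∑ I : Fin k → XX E t L, j (∏ l, chi E t L (w l) (I l)) •
      fun b => j (S.c b I) := by
    funext b
    rw [Finset.sum_apply]
    have h2 := congrArg j (S.hc b w)
    rw [map_ratCast, map_sum] at h2
    change ((f w b : ℚ) : ℂ) = _
    rw [h2]
    refine Finset.sum_congr rfl fun I _ => ?_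
    rw [Pi.smul_apply, smul_eq_mul, map_mul, mul_comm]
  rw [h1, Matrix.mulVec_sum]
  refine Finset.sum_eq_zero fun I _ => ?_
  rw [Matrix.mulVec_smul]
  by_cases hI : ∃ b, S.c b I ≠ 0
  · have h2 := type_conj hΦ t j V h S.c f S.Ψ S.hext S.htype S.hc I 1
    have h3 : sgL Φ t j I 1 = 0 := sg_zero hΦ t j V h hun f S I hI 1
    rw [h3, Int.cast_zero, neg_zero, zero_smul] at h2
    have h4 : (fun b => j (S.c b I)) = fun b => j ((1 : L ≃ₐ[ℚ] L) (S.c b I)) := rfl
    rw [h4, h2, smul_zero]
  · push Not at hI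
    have h2 : (fun b => j (S.c b I)) = 0 := by
      funext b
      rw [hI b, map_zero]
      rfl
    rw [h2, Matrix.mulVec_zero, smul_zero]

open Classical in
include hΦ in
/-- The coordinates of the class are Hodge classes. -/
theorem functional_hodge (h : ∀ i, ∀ ψ : E i →+* ℂ, ∃ φ : E i →+* L, j.comp φ = ψ)
    (hun : ∀ i, UnrelatedHodge V (E i)) (f : (∀ j, E (t j)) [⋀^Fin k]→ₗ[ℚ] (Fin v → ℚ))
    (S : Sit Φ t j V f) (lam : (Fin v → ℚ) →ₗ[ℚ] ℚ) :
    IsHodge (per Φ t) (lam.compAlternatingMap f) := by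
  have h0 : ∀ x : Fin v → ℚ, lam x = ∑ b, x b * lam (Pi.single b 1) := by
    intro x
    conv_lhs => rw [← Finset.univ_sum_single x, map_sum]
    refine Finset.sum_congr rfl fun b _ => ?_
    have h1 : (Pi.single b (x b) : Fin v → ℚ) = x b • Pi.single b 1 := by
      rw [← Pi.single_smul, smul_eq_mul, mul_one]
    rw [h1, map_smul, smul_eq_mul]
  let e : (Fin k → XX E t L) ≃ (Fin k → XX E t ℂ) :=
    Equiv.arrowCongr (Equiv.refl (Fin k)) (xEquiv t j h)
  refine isHodge_of_coeff hΦ t
    (fun I' => ∑ b, ((lam (Pi.single b 1) : ℚ) : ℂ) * j (S.c b (e.symm I'))) _ ?_ ?_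
  · intro w
    rw [LinearMap.compAlternatingMap_apply, h0, Rat.cast_sum]
    simp only [Finset.sum_mul]
    rw [Finset.sum_comm]
    refine Finset.sum_congr rfl fun b _ => ?_
    have h2 := congrArg j (S.hc b w)
    rw [map_ratCast, map_sum] at h2
    rw [Rat.cast_mul, h2, Finset.sum_mul]
    refine Fintype.sum_equiv e _ _ fun I => ?_
    rw [Equiv.symm_apply_apply, map_mul, map_prod]
    have h3 : ∏ l, chi E t ℂ (w l) (e I l) = ∏ l, j (chi E t L (w l) (I l)) := rfl
    rw [h3]
    ring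
  · intro I' hI'
    obtain ⟨I, rfl⟩ := e.surjective I'
    have hI : ∃ b, S.c b I ≠ 0 := by
      by_contra hall
      push Not at hall
      apply hI'
      refine Finset.sum_eq_zero fun b _ => ?_
      rw [Equiv.symm_apply_apply, hall b, map_zero, mul_zero]
    have h1 := sg_zero hΦ t j V h hun f S I hI 1
    exact h1

open Classical in
include hΦ in
/-- **Hodge classes on the product.** -/
theorem mem_hodgeSpan (h : ∀ i, ∀ ψ : E i →+* ℂ, ∃ φ : E i →+* L, j.comp φ = ψ)
    (hun : ∀ i, UnrelatedHodge V (E i)) (F : HAZ (∀ j, E (t j)) v)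
    (hF : IsHodgeOnProduct (per Φ t) V F) : F ∈ hodgeSpan (per Φ t) V := by
  obtain ⟨Ψ, hext, htype⟩ := hF
  have hS : ∀ k, Nonempty (Sit Φ t j V (F k)) := by
    intro k
    have h1 := fun b : Fin v => form_coeff t j h
      (((LinearMap.proj b : (Fin v → ℚ) →ₗ[ℚ] ℚ).compAlternatingMap (F k)).toMultilinearMap)
    choose c hc using h1
    refine ⟨⟨Ψ k, hext k, fun u => ?_, c, fun b w => hc b w⟩⟩
    rw [htype k u, Int.cast_zero, zero_smul]
  obtain ⟨N, hN⟩ : ∃ N, N = finrank ℚ (∀ j, E (t j)) := ⟨_, rfl⟩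
  have hbig : ∀ k, N < k → F k = 0 := by
    intro k hk
    refine AlternatingMap.ext fun w => ?_
    refine (F k).map_linearDependent w fun hw => ?_
    have h1 := hw.fintype_card_le_finrank
    rw [Fintype.card_fin, ← hN] at h1
    omega
  have hsum : F = ∑ k ∈ Finset.range (N + 1),
      (Pi.single k (F k) : HAZ (∀ j, E (t j)) v) := by
    funext k
    rw [Finset.sum_apply]
    by_cases hk : k ∈ Finset.range (N + 1)
    · rw [Finset.sum_eq_single k]
      · rw [Pi.single_eq_same]
      · intro l _ hl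
        exact Pi.single_eq_of_ne (Ne.symm hl) _
      · intro h0
        exact absurd hk h0
    · rw [Finset.sum_eq_zero]
      · refine hbig k ?_
        rw [Finset.mem_range] at hk
        omega
      · intro l hl
        refine Pi.single_eq_of_ne ?_ _
        rintro rfl
        exact hk hl
  rw [hsum]
  refine Submodule.sum_mem _ fun k _ => ?_
  obtain ⟨S⟩ := hS k
  -- the coordinates on the space of the Hodge classes
  let x := Module.finBasis ℚ (HZ V)
  have hlam : ∀ r, ∃ lam : (Fin v → ℚ) →ₗ[ℚ] ℚ, ∀ y : HZ V, lam y = x.coord r y := by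
    intro r
    obtain ⟨lam, hlam⟩ := LinearMap.exists_extend (x.coord r)
    exact ⟨lam, fun y => LinearMap.congr_fun hlam y⟩
  choose lam hlam using hlam
  have h1 : (Pi.single k (F k) : HAZ (∀ j, E (t j)) v) =
      ∑ r, cross ((lam r).compAlternatingMap (F k)) (x r : Fin v → ℚ) := by
    have h2 : F k = ∑ r, (LinearMap.toSpanSingleton ℚ (Fin v → ℚ) (x r : Fin v → ℚ)).compAlternatingMap
        ((lam r).compAlternatingMap (F k)) := by
      refine AlternatingMap.ext fun w => ?_
      let ev : ((∀ j, E (t j)) [⋀^Fin k]→ₗ[ℚ] (Fin v → ℚ)) →+ (Fin v → ℚ) :=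
        { toFun := fun g => g w
          map_zero' := rfl
          map_add' := fun _ _ => rfl }
      change F k w = ev _
      rw [map_sum]
      have hw : F k w ∈ HZ V := value_hodge hΦ t j V h hun (F k) S w
      have h3 := x.sum_repr ⟨F k w, hw⟩
      have h4 := congrArg (Subtype.val : HZ V → (Fin v → ℚ)) h3
      rw [← Submodule.subtype_apply, map_sum] at h4
      refine Eq.trans h4.symm (Finset.sum_congr rfl fun r _ => ?_)
      rw [map_smul]
      change _ = lam r (F k w) • (x r : Fin v → ℚ)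
      have h5 := hlam r ⟨F k w, hw⟩
      rw [h5]
      rfl
    funext l
    rw [Finset.sum_apply]
    by_cases hl : l = k
    · subst hl
      rw [Pi.single_eq_same]
      conv_lhs => rw [h2]
      refine Finset.sum_congr rfl fun r _ => ?_
      rw [cross, Pi.single_eq_same]
    · rw [Pi.single_eq_of_ne hl, Finset.sum_eq_zero]
      intro r _
      rw [cross, Pi.single_eq_of_ne hl]
  rw [h1]
  refine Submodule.sum_mem _ fun r _ => Submodule.subset_span ?_
  exact ⟨k, _, _, functional_hodge hΦ t j V h hun (F k) S (lam r), (x r).2, rfl⟩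

end

/-- **Hodge classes on the products of all abelian varieties of CM type with all unrelated
varieties.** -/
theorem hodge_split {ι : Type} [Fintype ι] {E : ι → Type} [∀ i, Field (E i)]
    [∀ i, NumberField (E i)] [∀ i, IsCMField (E i)] {Φ : ∀ i, Set (E i →+* ℂ)}
    (hΦ : ∀ i, IsCMType (Φ i)) {J : Type} [Fintype J] (t : J → ι) {v : ℕ} (V : Coh v)
    (hun : ∀ i, UnrelatedHodge V (E i)) (F : HAZ (∀ j, E (t j)) v)
    (hF : IsHodgeOnProduct (per Φ t) V F) : F ∈ hodgeSpan (per Φ t) V := by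
  obtain ⟨L, _, _, j, hj⟩ := exists_galois E
  exact mem_hodgeSpan hΦ t j V hj hun F hF

end Pool.Agent.K6.H79.CMA
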