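import Mathlib
import Pool.Agent.R299.NCH.Main
import Pool.Agent.K6.H79.CMA.Split
import Pool.Agent.K6.H79.CMA.Cross

/-!
# The noncommutative Hodge conjecture for `D(A) ⊠ 𝒟`, for abelian varieties of all CM types
-/

set_option autoImplicit false
set_option linter.unusedSectionVars false
set_option linter.unusedVariables false

namespace Pool.Agent.K6.H79.CMA

open Matrix NumberField Module Pool.Agent.H204R3.CM Pool.Agent.TH131.GHC Pool.Agent.TH504.VY
  Pool.Agent.Y1.HZ Pool.Agent.TH170.MF Pool.Agent.TH504.CB Pool.Agent.R299.NCH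

noncomputable section

variable {v : ℕ} {V : Coh v} {P : Matrix (Fin v) (Fin v) ℚ}
variable {W T : Type} [AddCommGroup W] [Module ℚ W] [AddCommGroup T] [Module ℂ T] (per : W →+ T)

/-- The span of the products `f ⊗ x` of a Hodge class `f` on `A` and a Hodge class `x` of `𝒟`. -/
def boxHodgeSpan (per : W →+ T) {v : ℕ} (V : Coh v) (P : Matrix (Fin v) (Fin v) ℚ) :
    Submodule ℚ (HAZ W v) :=
  Submodule.span ℚ {F | ∃ (k : ℕ) (f : W [⋀^Fin k]→ₗ[ℚ] ℚ) (x : Fin v → ℚ),
    IsHodge per f ∧ IsHodgeD V P x ∧ F = cross f x}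

/-- `algX k` is the part of degree `k` of the span of the classes of objects of `D(A)`, and `alg` and
`algA` are the spans of the classes of objects of `𝒟` and of `D(A) ⊠ 𝒟`; `χ` is the Euler form of
`K^top(𝒟)`. The classes of objects are Hodge classes, the product of objects of `D(A)` and `𝒟` is an
object of `D(A) ⊠ 𝒟`, the restriction of an object of `D(A) ⊠ 𝒟` to the fibre over the origin of `A` is
an object of `𝒟`, and for an object `N` of `𝒟` and an object `M` of `D(A) ⊠ 𝒟` the complex `RHom(N, M)`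
is an object of `D(A)`. -/
structure IsObjectSystem (per : W →+ T) {v : ℕ} (V : Coh v) (P : Matrix (Fin v) (Fin v) ℚ)
    (χ : (Fin v → ℚ) →ₗ[ℚ] (Fin v → ℚ) →ₗ[ℚ] ℚ)
    (algX : ∀ k : ℕ, Submodule ℚ (W [⋀^Fin k]→ₗ[ℚ] ℚ)) (alg : Submodule ℚ (Fin v → ℚ))
    (algA : Submodule ℚ (HAZ W v)) : Prop where
  hodge : ∀ x ∈ alg, IsHodgeD V P x
  box : ∀ k, ∀ f ∈ algX k, ∀ x ∈ alg, cross f x ∈ algA
  fibre : ∀ F ∈ algA, F 0 (fun l => l.elim0) ∈ alg
  hom : ∀ y ∈ alg, ∀ F ∈ algA, ∀ k, (χ y).compAlternatingMap (F k) ∈ algX k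

/-- The Hodge conjecture for `A`: all Hodge classes are in the span of the classes of objects. -/
def HodgeForA (per : W →+ T) (algX : ∀ k : ℕ, Submodule ℚ (W [⋀^Fin k]→ₗ[ℚ] ℚ)) : Prop :=
  ∀ (k : ℕ) (f : W [⋀^Fin k]→ₗ[ℚ] ℚ), IsHodge per f → f ∈ algX k

/-- All Hodge classes of `D(A) ⊠ 𝒟` are sums of products of Hodge classes of `A` and of `𝒟`. -/
def HodgeClassesSplit (per : W →+ T) {v : ℕ} (V : Coh v) (P : Matrix (Fin v) (Fin v) ℚ) : Prop :=
  ∀ F, IsHodgeAD per V P F → F ∈ boxHodgeSpan per V P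

/-- If the Euler form is not zero on the classes of objects of `𝒟`, then the noncommutative Hodge
conjecture for `D(A) ⊠ 𝒟` is equivalent to the Hodge conjecture for `A` and the noncommutative Hodge
conjecture for `𝒟`. -/
def NCHodgeIff (per : W →+ T) {v : ℕ} (V : Coh v) (P : Matrix (Fin v) (Fin v) ℚ) : Prop :=
  ∀ χ algX alg algA, IsObjectSystem per V P χ algX alg algA →
    (∃ x ∈ alg, ∃ y ∈ alg, χ y x ≠ 0) →
      (NCHodgeA per V P algA ↔ HodgeForA per algX ∧ NCHodge V P alg)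

/-- `𝒟` is unrelated to the field `E`, or the rank of `K^top(𝒟)` is less than twice the dimensions of
the minimal spaces of odd functions on the complex embeddings of `E` which are stable under the
automorphisms of the complex numbers. -/
def UnrelatedOrSmall {v : ℕ} (V : Coh v) (P : Matrix (Fin v) (Fin v) ℚ) (E : Type) [Field E] :
    Prop :=
  Unrelated V P E ∨ ∀ S ∈ minimalSpaces E, P.rank < 2 * finrank ℚ S

/-- For the products `A` of copies of the abelian varieties of CM type `(E i, Φ i)` and for all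
admissible subcategories `𝒟` such that `𝒟` is unrelated to the fields `E i` or the rank of `K^top(𝒟)` is
small: the Hodge classes of `D(A) ⊠ 𝒟` split, and the noncommutative Hodge conjecture for `D(A) ⊠ 𝒟` is
equivalent to the Hodge conjecture for `A` and the noncommutative Hodge conjecture for `𝒟`. -/
def NCHodgeMultiplicative {ι : Type} {E : ι → Type} [∀ i, Field (E i)] [∀ i, NumberField (E i)]
    (Φ : ∀ i, Set (E i →+* ℂ)) : Prop :=
  ∀ (J : Type) [Fintype J] (t : J → ι) (v : ℕ) (V : Coh v) (P : Matrix (Fin v) (Fin v) ℚ),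
    IsProjector V P → (∀ i, UnrelatedOrSmall V P (E i)) →
      HodgeClassesSplit (Pool.Agent.H204R3.CM.per Φ t) V P ∧
      NCHodgeIff (Pool.Agent.H204R3.CM.per Φ t) V P

theorem boxHodge_of_hodge (hP : IsProjector V P) (S : Split P)
    (h : ∀ F', IsHodgeOnProduct per (restrict V hP S) F' → F' ∈ hodgeSpan per (restrict V hP S))
    (F : HAZ W v) (hF : IsHodgeAD per V P F) : F ∈ boxHodgeSpan per V P := by
  have h1 := h _ (hodge_app per S.N V (restrict V hP S) (zN hP S) hF.2)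
  have h2 : F = appL W S.M (app S.N F) := by
    funext k
    ext w : 1
    change F k w = S.M *ᵥ (S.N *ᵥ F k w)
    rw [Matrix.mulVec_mulVec, S.MN, hF.1 k w]
  rw [h2]
  have h3 := Submodule.mem_map_of_mem (f := appL W S.M) h1
  rw [hodgeSpan, Submodule.map_span] at h3
  refine Submodule.span_mono ?_ h3
  rintro _ ⟨G, ⟨k, f, x, hf, hx, rfl⟩, rfl⟩
  refine ⟨k, f, S.M *ᵥ x, hf, ⟨?_, ?_⟩, app_cross S.M f x⟩
  · rw [Matrix.mulVec_mulVec, PM]
  · change V.z *ᵥ cv (S.M *ᵥ x) = 0
    have hx' : (restrict V hP S).z *ᵥ cv x = 0 := hx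
    rw [← cm_mulVec, Matrix.mulVec_mulVec, ← Mz hP S, ← Matrix.mulVec_mulVec, hx',
      Matrix.mulVec_zero]

theorem cross_isHodgeAD {k : ℕ} {f : W [⋀^Fin k]→ₗ[ℚ] ℚ} (hf : IsHodge per f) {x : Fin v → ℚ}
    (hx : IsHodgeD V P x) : IsHodgeAD per V P (cross f x) := by
  refine ⟨fun l w => ?_, isHodge_cross hf hx.2⟩
  by_cases h : l = k
  · subst h
    rw [cross, Pi.single_eq_same]
    change P *ᵥ (f w • x) = f w • x
    rw [Matrix.mulVec_smul, hx.1]
  · rw [cross, Pi.single_eq_of_ne h]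
    exact Matrix.mulVec_zero P

theorem iff_of_box (h : ∀ F, IsHodgeAD per V P F → F ∈ boxHodgeSpan per V P)
    {χ : (Fin v → ℚ) →ₗ[ℚ] (Fin v → ℚ) →ₗ[ℚ] ℚ}
    {algX : ∀ k : ℕ, Submodule ℚ (W [⋀^Fin k]→ₗ[ℚ] ℚ)} {alg : Submodule ℚ (Fin v → ℚ)}
    {algA : Submodule ℚ (HAZ W v)} (hC : IsObjectSystem per V P χ algX alg algA)
    (hχ : ∃ x ∈ alg, ∃ y ∈ alg, χ y x ≠ 0) :
    NCHodgeA per V P algA ↔ HodgeForA per algX ∧ NCHodge V P alg := by
  constructor
  · intro h1
    refine ⟨fun k f hf => ?_, fun x hx => ?_⟩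
    · obtain ⟨x, hx, y, hy, hne⟩ := hχ
      have h2 := hC.hom y hy _ (h1 _ (cross_isHodgeAD per hf (hC.hodge x hx))) k
      have h3 : (χ y).compAlternatingMap ((cross f x : HAZ W v) k) = χ y x • f := by
        refine AlternatingMap.ext fun w => ?_
        rw [cross, Pi.single_eq_same]
        change χ y (f w • x) = χ y x • f w
        rw [map_smul, smul_eq_mul, smul_eq_mul, mul_comm]
      rw [h3] at h2
      have h4 := Submodule.smul_mem _ (χ y x)⁻¹ h2
      rwa [smul_smul, inv_mul_cancel₀ hne, one_smul] at h4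
    · have h2 := hC.fibre _ (h1 _ (oneBox_hodge per hx))
      rw [oneBox_zero] at h2
      exact h2
  · rintro ⟨h1, h2⟩ F hF
    have h3 : boxHodgeSpan per V P ≤ algA := by
      refine Submodule.span_le.2 ?_
      rintro _ ⟨k, f, x, hf, hx, rfl⟩
      exact hC.box k f (h1 k f hf) x (h2 x hx)
    exact h3 (h F hF)

/-- **The noncommutative Hodge conjecture for `D(A) ⊠ 𝒟`, for all abelian varieties of CM type.** -/
theorem ncHodge_multiplicative {ι : Type} [Fintype ι] {E : ι → Type} [∀ i, Field (E i)]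
    [∀ i, NumberField (E i)] [∀ i, IsCMField (E i)] {Φ : ∀ i, Set (E i →+* ℂ)}
    (hΦ : ∀ i, IsCMType (Φ i)) : NCHodgeMultiplicative Φ := by
  intro J _ t v V P hP hun
  have hun' : ∀ i, Unrelated V P (E i) := fun i =>
    (hun i).elim id (rankCriterion_holds (E i) v V P hP)
  obtain ⟨S⟩ := exists_split hP.idem
  have h1 : ∀ F, IsHodgeAD (Pool.Agent.H204R3.CM.per Φ t) V P F →
      F ∈ boxHodgeSpan (Pool.Agent.H204R3.CM.per Φ t) V P := fun F hF =>
    boxHodge_of_hodge (Pool.Agent.H204R3.CM.per Φ t) hP S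
      (fun F' hF' => hodge_split hΦ t (restrict V hP S)
        (fun i => (unrelated_iff hP S).1 (hun' i)) F' hF') F hF
  exact ⟨h1, fun χ algX alg algA hC hχ => iff_of_box _ h1 hC hχ⟩

end

end Pool.Agent.K6.H79.CMA
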